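import Pool.Agent.H95.GY.Asm

/-!
# MP_c39b0e_gt, Q1: the answer is positive

For every locally compact Hausdorff group `G`, every compact large subgroup `K` and every Tychonoff
`K`-space `S`, the copy `{[1, s]}` of `S` is a neighbourhood `K`-equivariant retract of the twisted
product `G ×_K S`.  The definitions are in `Pool/Agent/H95/GY/Red.lean`.

The proof is self-contained over Mathlib: a compact group has small normal subgroups with matrix
quotients (Peter-Weyl), a locally compact almost connected group has arbitrarily small compact
normal subgroups `N` such that `G ⧸ N` has no small subgroups (Gleason, Yamabe), a locally compact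
group without small subgroups has an exponential chart (Gleason, Montgomery-Zippin), one-parameter
groups lift equivariantly, a finite-dimensional locally connected `G ⧸ K` forces `N ≤ K` for such
an `N`, and the equivariant retraction of a neighbourhood of `K` is pulled back from `G ⧸ N`.
-/

open Topology Set
open Pool.Agent.H95.GY

namespace Pool.Agent.Results.MP_c39b0e_gt.FullAnswer

/-- **Positive answer to Q1.** -/
theorem result.{v, u} : ∀ (G : Type u) [Group G] [TopologicalSpace G] [IsTopologicalGroup G]
    [LocallyCompactSpace G] [T2Space G] (K : Subgroup G), IsCompact (K : Set G) → IsLarge K →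
    ∀ (S : Type v) [TopologicalSpace S] [T35Space S] [MulAction K S] [ContinuousSMul K S],
      IsNhdEquivRetract K (range (Twisted.incl K S)) :=
  fun G _ _ _ _ _ => Pool.Agent.H95.GY.Asm.all G

end Pool.Agent.Results.MP_c39b0e_gt.FullAnswer
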